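import Pool.Agent.Helper52.SX.Goals
import Pool.Agent.Helper4.CS.RST

/-!
# Restriction of tuples of decision lists
-/

namespace Pool.Agent.Helper62.SX

open Pool.Agent.Helper81.CC Pool.Agent.Helper78.DT Pool.Agent.Helper65.CS Pool.Agent.Helper52.SX
open scoped Classical

/-- The digits of the restricted lists are the digits of the lists at the overwritten assignment. -/
lemma ixv_rst {n : ℕ} (s : List (ℕ × Bool)) (x : Fin n → Bool) (hs : (s.map Prod.fst).Nodup)
    (hn : ∀ p ∈ s, p.1 < n) (l : List DList) : ixv x (l.map (rst s)) = ixv (ovr s x) l := by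
  induction l with
  | nil => rfl
  | cons F l ih =>
    rw [List.map_cons, ixv, ixv, ih, Pool.Agent.Helper4.CS.rst.2 n s F x hs hn]

/-- **RTT.** -/
theorem rtt : RttStmt := by
  refine ⟨fun n W l s z hz => ⟨fun F' hF' => ?_, List.length_map _⟩, fun n s z x hs hn => ?_⟩
  · obtain ⟨F, hF, rfl⟩ := List.mem_map.1 hF'
    have h := Pool.Agent.Helper4.CS.rst.1 n W s F (hz F hF).1
    exact ⟨h.1, h.2.trans (hz F hF).2⟩
  · show z.2.getD (ixv x (z.1.map (rst s))) false = z.2.getD (ixv (ovr s x) z.1) false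
    rw [ixv_rst s x hs hn]

end Pool.Agent.Helper62.SX
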